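import Pool.Agent.L0h27.FS2.Main
import Pool.Agent.Y375.FD.Upper

/-!
# Levels of arrangements of lines with few directions: the sharp constant

`height`, `level`, `kLevel`, `IsVertex` and `complexity` are defined in
`Pool/Agent/KLev/Levels.lean` (namespace `KLev.Levels`): a line is a pair (slope, intercept), the
`k`-level is the closure of the set of points on the lines with exactly `k` lines strictly below,
and its complexity is the number of the points where it passes from one line to another.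
-/

namespace Pool.Agent.Results.MP_a08d0a_co.FewDirectionsSharp

open KLev.Levels

/-- the number of distinct slopes of the lines of `Γ` -/
noncomputable def directions (Γ : Finset (ℝ × ℝ)) : ℕ :=
  open Classical in (Γ.image Prod.fst).card

/-- no three lines of `Γ` pass through a common point -/
def NoThree (Γ : Finset (ℝ × ℝ)) : Prop :=
  ∀ l ∈ Γ, ∀ m ∈ Γ, ∀ j ∈ Γ, l ≠ m → l ≠ j → m ≠ j →
    ∀ x : ℝ, ¬ (height l x = height m x ∧ height m x = height j x)

/-- **The maximal complexity of a `k`-level of `n` lines with at most `D` directions is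
`(2 (D - 1) + o(1)) * min (k, n - k)`.** The upper bound holds for all arrangements, the lower one
is attained by arrangements without three concurrent lines, uniformly in the range
`(C * D) ^ D ≤ min (k, n - k)`, that is, up to `D` of order `log m / log log m`,
`m = min (k, n - k)`. -/
theorem result :
    (∀ D C n k : ℕ, 2 ≤ D → 1 ≤ C → (C * D) ^ D ≤ min k (n - k) →
      ∃ Γ : Finset (ℝ × ℝ), Γ.card = n ∧ directions Γ ≤ D ∧ NoThree Γ ∧
        (1 - 2 / (C : ℝ)) * (2 * ((D : ℝ) - 1)) * (min k (n - k) : ℕ) ≤ complexity Γ k) ∧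
    (∀ D : ℕ, 2 ≤ D → ∀ ε : ℝ, 0 < ε → ∃ m₀ : ℕ, ∀ n k : ℕ, m₀ ≤ min k (n - k) →
      (∀ Γ : Finset (ℝ × ℝ), Γ.card = n → directions Γ ≤ D →
        (complexity Γ k : ℝ) ≤ (2 * ((D : ℝ) - 1) + ε) * (min k (n - k) : ℕ)) ∧
      (∃ Γ : Finset (ℝ × ℝ), Γ.card = n ∧ directions Γ ≤ D ∧ NoThree Γ ∧
        (2 * ((D : ℝ) - 1) - ε) * (min k (n - k) : ℕ) ≤ complexity Γ k)) := by
  classical
  have hlow : ∀ D C n k : ℕ, 2 ≤ D → 1 ≤ C → (C * D) ^ D ≤ min k (n - k) →
      ∃ Γ : Finset (ℝ × ℝ), Γ.card = n ∧ directions Γ ≤ D ∧ NoThree Γ ∧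
        (1 - 2 / (C : ℝ)) * (2 * ((D : ℝ) - 1)) * (min k (n - k) : ℕ) ≤ complexity Γ k := by
    intro D C n k hD hC hm
    set m₀ := min k (n - k) with hm₀
    have hDC : D ≤ C * D := Nat.le_mul_of_pos_left _ hC
    have h2 : 2 ≤ C * D := hD.trans hDC
    have hN0 : 0 < C * D := by omega
    have e1 : (C * D) ^ D = (C * D) ^ (D - 2) * (C * D) ^ 2 := by
      rw [← pow_add]; congr 1; omega
    have h3 : (C * D) ^ 2 ≤ m₀ := by
      refine le_trans ?_ hm
      exact Nat.pow_le_pow_right hN0 hD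
    have hk : k < n := by
      have : 1 ≤ n - k := by
        have h4 : 0 < (C * D) ^ 2 := by positivity
        omega
      omega
    obtain ⟨Γ, g1, g2, g3, g4⟩ := Pool.Agent.L0h27.FS2.lower D (C * D) hD h2 (by omega) n k hk
    refine ⟨Γ, g1, ?_, g3, le_trans ?_ g4⟩
    · unfold directions
      convert g2
    · set m := min (k + 1) (n - k - 1) with hmdef
      have hmm : m₀ ≤ m + 1 := by omega
      have hmm' : (m₀:ℝ) ≤ m + 1 := by exact_mod_cast hmm
      have hC' : (1:ℝ) ≤ C := by exact_mod_cast hC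
      have hD' : (2:ℝ) ≤ D := by exact_mod_cast hD
      have h3' : ((C:ℝ) * D) ^ 2 ≤ m₀ := by exact_mod_cast h3
      have h5 : ((C:ℝ) * D) ^ (D - 2) * ((C:ℝ) * D) ^ 2 ≤ m₀ := by
        rw [e1] at hm
        exact_mod_cast hm
      have hCD : (2:ℝ) * C ≤ C * D := by nlinarith
      have hsq : 4 * (C:ℝ) ^ 2 ≤ ((C:ℝ) * D) ^ 2 := by nlinarith
      have hsq0 : 0 < ((C:ℝ) * D) ^ 2 := by positivity
      have hm₀0 : (0:ℝ) ≤ m₀ := by positivity
      -- the power is small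
      have h6 : 4 * (C:ℝ) ^ 2 * ((C:ℝ) * D) ^ (D - 2) ≤ m₀ := by
        have : 4 * (C:ℝ) ^ 2 * ((C:ℝ) * D) ^ (D - 2) ≤ ((C:ℝ) * D) ^ 2 * ((C:ℝ) * D) ^ (D - 2) :=
          mul_le_mul_of_nonneg_right hsq (by positivity)
        linarith
      have h7 : 4 * (C:ℝ) ^ 2 ≤ m₀ := hsq.trans h3'
      have hCC : (C:ℝ) ≤ (C:ℝ) ^ 2 := by nlinarith
      -- `2 m - 3 N ^ (D - 2) ≥ (2 - 5 / (4 C)) m₀`
      have h8 : (2 - 5 / (4 * (C:ℝ))) * m₀ ≤ 2 * (m:ℝ) - 3 * ((C:ℝ) * D) ^ (D - 2) := by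
        have h9 : ((C:ℝ) * D) ^ (D - 2) ≤ m₀ / (4 * C) := by
          rw [le_div_iff₀ (by positivity)]
          have : ((C:ℝ) * D) ^ (D - 2) * (4 * C) ≤ ((C:ℝ) * D) ^ (D - 2) * (4 * C ^ 2) :=
            mul_le_mul_of_nonneg_left (by linarith) (by positivity)
          linarith
        have h10 : (1:ℝ) ≤ m₀ / (4 * C) := by
          rw [le_div_iff₀ (by positivity)]
          linarith
        have e2 : (2 - 5 / (4 * (C:ℝ))) * m₀ = 2 * m₀ - 5 * (m₀ / (4 * C)) := by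
          field_simp
        rw [e2]
        linarith
      have h11 : (1 - 1 / (2 * (C:ℝ))) ≤ 1 - ((D:ℝ) - 2) / (2 * ((C * D : ℕ) : ℝ)) := by
        have : ((D:ℝ) - 2) / (2 * ((C * D : ℕ) : ℝ)) ≤ 1 / (2 * (C:ℝ)) := by
          push_cast
          rw [div_le_div_iff₀ (by positivity) (by positivity)]
          nlinarith
        linarith
      have h12 : 0 ≤ 1 - 1 / (2 * (C:ℝ)) := by
        rw [sub_nonneg, div_le_one (by positivity)]
        linarith
      have h13 : 0 ≤ (2 - 5 / (4 * (C:ℝ))) := by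
        rw [sub_nonneg, div_le_iff₀ (by positivity)]
        linarith
      have h14 : 0 ≤ 1 - ((D:ℝ) - 2) / (2 * ((C * D : ℕ) : ℝ)) := h12.trans h11
      have h15 : ((D:ℝ) - 1) * (1 - ((D:ℝ) - 2) / (2 * ((C * D : ℕ) : ℝ))) *
          ((2 - 5 / (4 * (C:ℝ))) * m₀) ≤ ((D:ℝ) - 1) *
          (1 - ((D:ℝ) - 2) / (2 * ((C * D : ℕ) : ℝ))) *
          (2 * (m:ℝ) - 3 * ((C:ℝ) * D) ^ (D - 2)) :=
        mul_le_mul_of_nonneg_left h8 (mul_nonneg (by linarith) h14)
      have h16 : ((D:ℝ) - 1) * (1 - 1 / (2 * (C:ℝ))) * ((2 - 5 / (4 * (C:ℝ))) * m₀) ≤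
          ((D:ℝ) - 1) * (1 - ((D:ℝ) - 2) / (2 * ((C * D : ℕ) : ℝ))) *
          ((2 - 5 / (4 * (C:ℝ))) * m₀) := by
        apply mul_le_mul_of_nonneg_right _ (mul_nonneg h13 hm₀0)
        exact mul_le_mul_of_nonneg_left h11 (by linarith)
      have h17 : (1 - 2 / (C:ℝ)) * (2 * ((D:ℝ) - 1)) * m₀ ≤
          ((D:ℝ) - 1) * (1 - 1 / (2 * (C:ℝ))) * ((2 - 5 / (4 * (C:ℝ))) * m₀) := by
        have h18 : (1 - 2 / (C:ℝ)) * 2 ≤ (1 - 1 / (2 * (C:ℝ))) * (2 - 5 / (4 * (C:ℝ))) := by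
          have hu : 0 < 1 / (C:ℝ) := by positivity
          have e3 : 2 / (C:ℝ) = 2 * (1 / C) := by ring
          have e4 : 1 / (2 * (C:ℝ)) = 1 / 2 * (1 / C) := by field_simp
          have e5 : 5 / (4 * (C:ℝ)) = 5 / 4 * (1 / C) := by field_simp
          rw [e3, e4, e5]
          nlinarith [mul_pos hu hu]
        have h19 : 0 ≤ ((D:ℝ) - 1) * m₀ := mul_nonneg (by linarith) hm₀0
        have h20 := mul_le_mul_of_nonneg_right h18 h19
        calc (1 - 2 / (C:ℝ)) * (2 * ((D:ℝ) - 1)) * m₀ =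
              (1 - 2 / (C:ℝ)) * 2 * (((D:ℝ) - 1) * m₀) := by ring
          _ ≤ _ := h20
          _ = _ := by ring
      have e6 : (((C * D : ℕ) : ℝ)) ^ (D - 2) = ((C:ℝ) * D) ^ (D - 2) := by push_cast; rfl
      rw [e6]
      exact h17.trans (h16.trans h15)
  refine ⟨hlow, ?_⟩
  intro D hD ε hε
  have hD' : (2:ℝ) ≤ D := by exact_mod_cast hD
  obtain ⟨C, hC⟩ := exists_nat_gt (4 * ((D:ℝ) - 1) / ε)
  obtain ⟨m₁, hm₁⟩ := exists_nat_gt (((D:ℝ) - 1) / ε)
  have hC0 : (0:ℝ) < C := lt_of_le_of_lt (by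
    apply div_nonneg _ hε.le
    linarith) hC
  have hC1 : 1 ≤ C := by exact_mod_cast hC0
  refine ⟨max ((C * D) ^ D) m₁, fun n k hm => ⟨?_, ?_⟩⟩
  · intro Γ hΓ hd
    have h1 := Pool.Agent.Y375.FD.upper Γ k
    have h2 : complexity Γ k ≤ (D - 1) * (2 * min k (n - k) + 1) := by
      refine h1.trans ?_
      apply Nat.mul_le_mul
      · unfold directions at hd
        have : (Γ.image Prod.fst).card ≤ D := by convert hd
        omega
      · rw [hΓ]; omega
    have h3 : (complexity Γ k : ℝ) ≤ ((D:ℝ) - 1) * (2 * (min k (n - k) : ℕ) + 1) := by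
      have h4 : ((complexity Γ k : ℕ) : ℝ) ≤ (((D - 1) * (2 * min k (n - k) + 1) : ℕ) : ℝ) := by
        exact_mod_cast h2
      rw [Nat.cast_mul, Nat.cast_sub (by omega)] at h4
      push_cast at h4 ⊢
      exact h4
    have h5 : (m₁:ℝ) ≤ (min k (n - k) : ℕ) := by exact_mod_cast (le_max_right _ _).trans hm
    rw [div_lt_iff₀ hε] at hm₁
    nlinarith
  · obtain ⟨Γ, g1, g2, g3, g4⟩ := hlow D C n k hD hC1 ((le_max_left _ _).trans hm)
    refine ⟨Γ, g1, g2, g3, le_trans ?_ g4⟩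
    apply mul_le_mul_of_nonneg_right _ (by positivity)
    have h6 : 2 / (C:ℝ) * (2 * ((D:ℝ) - 1)) ≤ ε := by
      rw [div_lt_iff₀ hε] at hC
      rw [div_mul_eq_mul_div, div_le_iff₀ hC0]
      linarith
    linarith

end Pool.Agent.Results.MP_a08d0a_co.FewDirectionsSharp
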