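import Pool.Agent.L0h27.PP.Asym

/-!
# Single levels of arrangements of pseudolines: a polynomial lower bound

For all `k` with `k₀ ≤ k ≤ n - k₀` there is an arrangement of `n` pseudolines (graphs of continuous functions any two
of which meet in exactly one point and cross there) whose `k`-level has at least `n * m ^ (1 / 50)` vertices, where
`m = min k (n - k)`.

The idea: a swap of two thin bundles of pseudolines is a sweep of the level through one of the two bundles, and
during the sweep a small copy of the whole construction is carried out in every row of the bundle. Between two swaps in
which it takes part, a bundle is rearranged into new rows by a drift: at the `t`-th time the element `(w, y)` is at the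
position `y + t s(w)`, rows are the elements with positions between consecutive multiples of `h`, and the speeds
`s(w)` are chosen such that every two elements change their order only once. Since the drift of an inner bundle may
carry its elements through the rows of the outer one, the number of rows of every level of the recursion is a
constant, and every level of the recursion multiplies the number of pseudolines by the constant `10 ^ 4` and the
complexity of the level by `1.2259 * 10 ^ 4`.
-/

set_option autoImplicit false

namespace Pool.Agent.Results.MP_a08d0a_co.PseudolineLevels

open Pool.Agent.L0h27.PP

theorem result : ∃ k₀ : ℕ, ∀ n k : ℕ, k₀ ≤ k → k + k₀ ≤ n →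
    ∃ f : Fin n → ℝ → ℝ, Pseudolines f ∧ ∃ Z : Finset ℝ, (∀ x ∈ Z, IsVertex f k x) ∧
      (n : ℝ) * ((min k (n - k) : ℕ) : ℝ) ^ ((1 : ℝ) / 50) ≤ Z.card := main

end Pool.Agent.Results.MP_a08d0a_co.PseudolineLevels
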