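import Pool.Agent.L0h67.HL.LevSub

/-!
# Single levels of random subsets of an arbitrary set of lines

For an arbitrary set `Γ` of `N` non-vertical lines (parallel lines and multiple points are allowed)
and all `k < n < N`, the average of the complexity of the `k`-level over the `n`-element subsets of
`Γ` is at most

  `C √(N / (N - n)) n (min (k, n - 1 - k) + 1) ^ (1/6)`

with an absolute constant `C`. So a random set of `δ N` of the lines of `Γ` is deleted, and the
exponent `1/3` of Dey's bound for the complexity of a single level of the remaining lines drops to
`1/6` on average.

Proof:

* the expected number of crossings with `k` lines below of `n` independent random lines with a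
  common law is `O (n (min (k, n - 2 - k) + 1) ^ (1/6))` (the starting result `IidLevel`); it is
  applied to uniform laws on small discs around the `N` dual points;
* the hypergeometric distribution is compared with the binomial distribution: for `A + B = M` and
  `k + k' < M` the first is at most `84 √(M / (M - k - k'))` times the second
  (`Pool/Agent/L0h67/HL/Stir.lean`), so sampling without replacement costs only this factor;
* sets of lines that are not in general position are perturbed: for every vertex of the `k`-level
  of every subset `Q` the first crossing of two perturbed lines through the vertex along one of them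
  has `k` or `k - 1` of the perturbed lines of `Q` below
  (`Pool/Agent/L0h67/HL/Pert.lean`).
-/

set_option autoImplicit false

namespace Pool.Agent.Results.MP_a08d0a_co.RandomSubarrangements

open Finset KLev.Levels

theorem result : ∃ C : ℝ, 0 < C ∧ ∀ (Γ : Finset (ℝ × ℝ)) (n k : ℕ), n < Γ.card → k < n →
    ((∑ Q ∈ Γ.powersetCard n, complexity Q k : ℕ) : ℝ) ≤
      C * Real.sqrt ((Γ.card : ℝ) / ((Γ.card : ℝ) - n)) *
        (n * ((min k (n - 1 - k) : ℕ) + 1) ^ (1 / 6 : ℝ)) * (Γ.card.choose n) := by
  have hSS := Pool.Agent.H189R2.Iid.SS_ge
  refine ⟨5376 * 2616 * Pool.Agent.H189R2.Iid.SS, by positivity, ?_⟩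
  intro Γ n k h _
  refine (Pool.Agent.L0h67.HL.avg_complexity Γ h k).trans (le_of_eq ?_)
  ring

end Pool.Agent.Results.MP_a08d0a_co.RandomSubarrangements
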